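import Pool.Agent.helper69.MU.Uni
import Pool.Agent.helper69.MU.Avg

/-!
# MU-MM2, MM4: the uniform measure of clopen sets; coordinatewise balanced maps
-/

set_option autoImplicit false

namespace Pool.Agent.helper50.MU

open Finset Filter MeasureTheory Pool.Agent.helper69.MU

private theorem isProb_uni (X : Type) [Fintype X] [Nonempty X] [MeasurableSpace X] :
    IsProbabilityMeasure (uni X) := by
  unfold uni
  infer_instance

private theorem uni_singleton {X : Type} [Fintype X] [Nonempty X] [MeasurableSpace X]
    [MeasurableSingletonClass X] (x : X) : uni X {x} = (Fintype.card X : ENNReal)⁻¹ := by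
  unfold uni
  rw [PMF.toMeasure_apply_singleton _ _ (measurableSet_singleton x), PMF.uniformOfFintype_apply]

/-- The measure of a set which depends on finitely many coordinates. -/
theorem real_eq_card {I X : Type} [DecidableEq I] [Fintype X] [Nonempty X] [MeasurableSpace X]
    [MeasurableSingletonClass X] (W : Finset I) (R : Set (I → X))
    (hW : ∀ x y, (∀ i ∈ W, x i = y i) → (x ∈ R ↔ y ∈ R)) (x0 : X) :
    MeasurableSet R ∧ (um I X).real R * (Fintype.card X : ℝ) ^ W.card =
      Nat.card {u : W → X // ext W x0 u ∈ R} := by
  classical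
  haveI := isProb_uni X
  let S : Set (W → X) := {u | ext W x0 u ∈ R}
  have hRS : R = W.restrict ⁻¹' S := by
    ext x
    show x ∈ R ↔ ext W x0 (W.restrict x) ∈ R
    refine hW _ _ fun i hi => ?_
    rw [ext_of_mem hi]
    rfl
  have hS : MeasurableSet S := (Set.toFinite S).measurableSet
  have hmeas : MeasurableSet R := by
    rw [hRS]
    exact hS.preimage (by fun_prop)
  refine ⟨hmeas, ?_⟩
  have h1 : (um I X).real R = (Measure.pi fun _ : W => uni X).real S := by
    rw [hRS, Measure.real, Measure.real, ← Measure.infinitePi_map_restrict (μ := fun _ : I => uni X) (I := W),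
      Measure.map_apply (by fun_prop) hS]
    rfl
  have h2 : (Measure.pi fun _ : W => uni X).real S =
      ∑ u ∈ (Set.toFinite S).toFinset, (Measure.pi fun _ : W => uni X).real {u} := by
    rw [sum_measureReal_singleton, Set.Finite.coe_toFinset]
  have h3 : ∀ u : W → X, (Measure.pi fun _ : W => uni X).real {u} = ((Fintype.card X : ℝ) ^ W.card)⁻¹ := by
    intro u
    rw [Measure.real, Measure.pi_singleton]
    simp only [uni_singleton, prod_const, ENNReal.toReal_pow, ENNReal.toReal_inv, ENNReal.toReal_natCast, inv_pow]
    rw [card_univ, Fintype.card_coe]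
  have hX : (Fintype.card X : ℝ) ^ W.card ≠ 0 := by
    have : 0 < Fintype.card X := Fintype.card_pos
    positivity
  rw [h1, h2, sum_congr rfl fun u _ => h3 u, sum_const, nsmul_eq_mul, mul_assoc, inv_mul_cancel₀ hX, mul_one]
  have h4 : Nat.card {u : W → X // ext W x0 u ∈ R} = Nat.card S := rfl
  rw [h4, Nat.card_coe_set_eq, Set.ncard_eq_toFinset_card _ (Set.toFinite S)]

private theorem map_uni {X Y : Type} [Fintype X] [Nonempty X] [MeasurableSpace X] [MeasurableSingletonClass X]
    [Fintype Y] [Nonempty Y] [MeasurableSpace Y] [MeasurableSingletonClass Y] [DecidableEq Y]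
    (f : X → Y) (hf : ∀ y, (univ.filter fun x => f x = y).card * Fintype.card Y = Fintype.card X) :
    (uni X).map f = uni Y := by
  classical
  have hfm : Measurable f := measurable_of_finite f
  refine Measure.ext_of_singleton fun y => ?_
  rw [Measure.map_apply hfm (measurableSet_singleton y), uni_singleton]
  have h1 : uni X (f ⁻¹' {y}) = ((univ.filter fun x => f x = y).card : ENNReal) / (Fintype.card X : ENNReal) := by
    unfold uni
    rw [PMF.toMeasure_uniformOfFintype_apply (f ⁻¹' {y}) (hfm (measurableSet_singleton y))]
    congr 2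
    rw [← Fintype.card_subtype]
    exact Fintype.card_congr (Equiv.refl _)
  rw [h1, ← hf y]
  have hX : 0 < Fintype.card X := Fintype.card_pos
  have hc : (univ.filter fun x => f x = y).card ≠ 0 := by
    intro h0
    have := hf y
    rw [h0, zero_mul] at this
    omega
  push_cast
  rw [ENNReal.div_eq_inv_mul, ENNReal.mul_inv (Or.inr (ENNReal.natCast_ne_top _)) (Or.inl (ENNReal.natCast_ne_top _)),
    mul_comm, ← mul_assoc, ENNReal.mul_inv_cancel (by exact_mod_cast hc) (ENNReal.natCast_ne_top _), one_mul]

/-- Coordinatewise balanced maps preserve the measure. -/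
theorem mp_um {I X Y : Type} [Fintype X] [Nonempty X] [MeasurableSpace X] [MeasurableSingletonClass X]
    [Fintype Y] [Nonempty Y] [MeasurableSpace Y] [MeasurableSingletonClass Y] [DecidableEq Y]
    (f : I → X → Y) (hf : ∀ i y, (univ.filter fun x => f i x = y).card * Fintype.card Y = Fintype.card X) :
    MeasurePreserving (fun (z : I → X) (i : I) => f i (z i)) (um I X) (um I Y) := by
  haveI := isProb_uni X
  have hfm : ∀ i, Measurable (f i) := fun i => measurable_of_finite (f i)
  refine ⟨by fun_prop, ?_⟩
  unfold um
  rw [Measure.infinitePi_map_pi (μ := fun _ : I => uni X) (f := f) hfm]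
  congr 1
  funext i
  exact map_uni (f i) (hf i)

end Pool.Agent.helper50.MU
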