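import Pool.Agent.helper69.MU.Defs

/-!
# MU-M6a: selective ultrafilters have the diagonal property
-/

set_option autoImplicit false

namespace Pool.Agent.helper50.MU

open Filter Topology
open Pool.Agent.helper69.MU

/-- Diagonal property of selective ultrafilters (P-point + Q-point). -/
theorem Selective.diag {U : Ultrafilter ℕ} (hU : ∀ n : ℕ, ({n} : Set ℕ) ∉ U) (hs : Selective U)
    (B : ℕ → Set ℕ) (hB : ∀ k, B k ∈ U) :
    ∃ K ∈ U, ∀ k ∈ K, ∀ k' ∈ K, k < k' → k' ∈ B k := by
  classical
  have hat : (U : Filter ℕ) ≤ atTop := by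
    rcases U.le_cofinite_or_eq_pure with h | ⟨a, ha⟩
    · rwa [Nat.cofinite_eq_atTop] at h
    · refine absurd ?_ (hU a)
      rw [ha]
      exact Set.mem_singleton a
  have hB' : ∀ k, {n | k < n ∧ ∀ i, i ≤ k → n ∈ B i} ∈ U := by
    intro k
    have h1 : ∀ᶠ n in (U : Filter ℕ), k < n := hat (eventually_gt_atTop k)
    have h2 : ∀ᶠ n in (U : Filter ℕ), ∀ i ∈ Set.Iic k, n ∈ B i :=
      (eventually_all_finite (Set.finite_Iic k)).2 fun i _ => hB i
    exact h1.and h2
  have hex : ∀ n : ℕ, ∃ k, ¬ (k < n ∧ ∀ i, i ≤ k → n ∈ B i) := fun n => ⟨n, by simp⟩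
  obtain ⟨A, hA, hc | hi⟩ := hs fun n => Nat.find (hex n)
  · obtain ⟨c, hc⟩ := hc
    obtain ⟨n, hn⟩ := U.nonempty_of_mem (Filter.inter_mem hA (hB' c))
    have h1 := hc n hn.1
    have h2 := Nat.find_spec (hex n)
    rw [h1] at h2
    exact absurd hn.2 h2
  · have hg : ∀ k, ∃ m, ∀ n ∈ A, m ≤ n → k < Nat.find (hex n) := by
      intro k
      have hfin : {n | n ∈ A ∧ Nat.find (hex n) ≤ k}.Finite := by
        refine Set.Finite.of_finite_image (f := fun n => Nat.find (hex n)) ?_ (hi.mono fun n hn => hn.1)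
        refine (Set.finite_Iic k).subset ?_
        rintro _ ⟨n, hn, rfl⟩
        exact hn.2
      obtain ⟨m, hm⟩ := hfin.bddAbove
      refine ⟨m + 1, fun n hn hmn => ?_⟩
      by_contra hcon
      have := hm ⟨hn, not_lt.1 hcon⟩
      omega
    choose g hg using hg
    let G : ℕ → ℕ := fun k => k + 1 + ∑ i ∈ Finset.range (k + 1), g i
    have hGmono : Monotone G := by
      intro k l hkl
      have h1 : ∑ i ∈ Finset.range (k + 1), g i ≤ ∑ i ∈ Finset.range (l + 1), g i :=
        Finset.sum_le_sum_of_subset (Finset.range_mono (by omega))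
      show k + 1 + _ ≤ l + 1 + _
      omega
    have hGg : ∀ k, g k ≤ G k := by
      intro k
      have h1 : g k ≤ ∑ i ∈ Finset.range (k + 1), g i :=
        Finset.single_le_sum (f := g) (fun _ _ => Nat.zero_le _) (Finset.self_mem_range_succ k)
      show g k ≤ k + 1 + _
      omega
    have hGk : ∀ k, k < G k := by
      intro k
      show k < k + 1 + _
      omega
    let a : ℕ → ℕ := fun j => G^[j] 0
    have ha : ∀ j, a (j + 1) = G (a j) := fun j => Function.iterate_succ_apply' G j 0
    have haj : ∀ j, j ≤ a j := by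
      intro j
      induction j with
      | zero => exact Nat.zero_le _
      | succ j ih =>
        rw [ha]
        have := hGk (a j)
        omega
    have hex2 : ∀ n : ℕ, ∃ j, n < a (j + 1) := fun n => ⟨n, by have := haj (n + 1); omega⟩
    obtain ⟨C, hC, hc2 | hi2⟩ := hs fun n => Nat.find (hex2 n)
    · obtain ⟨c, hc2⟩ := hc2
      have h1 : {n | a (c + 1) ≤ n} ∈ U := hat (eventually_ge_atTop (a (c + 1)))
      obtain ⟨n, hn⟩ := U.nonempty_of_mem (Filter.inter_mem hC h1)
      have h2 := hc2 n hn.1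
      have h3 := Nat.find_spec (hex2 n)
      rw [h2] at h3
      exact absurd hn.2 (not_le.2 h3)
    · have key : ∀ k ∈ A ∩ C, ∀ k' ∈ A ∩ C, k < k' →
          (Even (Nat.find (hex2 k)) ↔ Even (Nat.find (hex2 k'))) → k' ∈ B k := by
        intro k hk k' hk' hkk hpar
        have h1 : Nat.find (hex2 k) ≤ Nat.find (hex2 k') :=
          Nat.find_le (lt_trans hkk (Nat.find_spec (hex2 k')))
        have h2 : Nat.find (hex2 k) ≠ Nat.find (hex2 k') := fun h =>
          hkk.ne (hi2 hk.2 hk'.2 h)
        have h3 : Nat.find (hex2 k) + 1 ≠ Nat.find (hex2 k') := by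
          intro h
          rw [← h, Nat.even_add_one] at hpar
          tauto
        have h4 : Nat.find (hex2 k) + 1 < Nat.find (hex2 k') := by omega
        have h5 := Nat.find_min (hex2 k') h4
        rw [not_lt, ha] at h5
        have h6 := Nat.find_spec (hex2 k)
        have h7 : g k ≤ k' := (hGg k).trans ((hGmono h6.le).trans h5)
        have h8 := hg k k' hk'.1 h7
        have h9 := Nat.find_min (hex k') h8
        rw [not_not] at h9
        exact h9.2 k le_rfl
      rcases U.mem_or_compl_mem {n | Even (Nat.find (hex2 n))} with hp | hp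
      · refine ⟨(A ∩ C) ∩ {n | Even (Nat.find (hex2 n))}, Filter.inter_mem (Filter.inter_mem hA hC) hp, ?_⟩
        intro k hk k' hk' hkk
        exact key k hk.1 k' hk'.1 hkk (iff_of_true hk.2 hk'.2)
      · refine ⟨(A ∩ C) ∩ {n | Even (Nat.find (hex2 n))}ᶜ, Filter.inter_mem (Filter.inter_mem hA hC) hp, ?_⟩
        intro k hk k' hk' hkk
        exact key k hk.1 k' hk'.1 hkk (iff_of_false hk.2 hk'.2)

end Pool.Agent.helper50.MU
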